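import Pool.Agent.TH912.Rig.Cond

/-!
# Generic rigidity in space: an explicit characterization for dense graphs, for graphs without
three independent vertices, and for unions of two rigid parts
-/

set_option autoImplicit false

namespace Pool.Agent.Results.MP_37c7bf_co.DenseAndTwoBodies

open Pool.Agent.H283R2.DR Pool.Agent.TH912.Rig

/-- The two-part condition `TwoPart G` says: for all partitions of the vertex set into `S`, `T`,
`U` (parts may be empty) the number of edges between `S` and `T` plus the ranks of the complete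
graphs on `S ∪ U` and on `T ∪ U` minus the rank of the complete graph on `U` is at least `3 n - 6`;
the rank of the complete graph with `k` vertices is `0`, `0`, `1`, `3 k - 6` for `k = 0`, `1`, `2`,
`k ≥ 3`. A graph `G` with `n ≥ 5` vertices is generically rigid in `ℝ³` if and only if it
satisfies the two-part condition, if

(1) the vertex set is the union of two sets with at least three elements which induce
generically rigid graphs, or

(2) `n ≥ 21` and `G` has no three independent vertices, or

(3) `n ≥ n₀(ε)` and the minimum degree of `G` is at least `(1/3 + ε) n`.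

The constant `1/3` is best possible: there are arbitrarily large graphs with minimum degree at
least `n/3 - 1` which satisfy the condition and are not generically rigid in `ℝ³`. -/
theorem result :
    (∀ ε : ℝ, 0 < ε → ∃ n₀ : ℕ, ∀ (V : Type) [Fintype V] (G : SimpleGraph V)
      [DecidableRel G.Adj], 5 ≤ Fintype.card V →
      ((∃ A B : Finset V, 3 ≤ A.card ∧ 3 ≤ B.card ∧ (∀ v, v ∈ A ∨ v ∈ B) ∧
          GenRigid 3 (G.induce (A : Set V)) ∧ GenRigid 3 (G.induce (B : Set V))) ∨
        (21 ≤ Fintype.card V ∧
          ∀ u v w, u ≠ v → u ≠ w → v ≠ w → G.Adj u v ∨ G.Adj u w ∨ G.Adj v w) ∨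
        (n₀ ≤ Fintype.card V ∧ ∀ v, (1 / 3 + ε) * (Fintype.card V : ℝ) ≤ G.degree v)) →
      (GenRigid 3 G ↔ TwoPart G)) ∧
    (∀ N : ℕ, ∃ (V : Type) (_ : Fintype V) (G : SimpleGraph V) (_ : DecidableRel G.Adj),
      N ≤ Fintype.card V ∧ (∀ v, Fintype.card V ≤ 3 * (G.degree v + 1)) ∧ TwoPart G ∧
      ¬ GenRigid 3 G) := by
  classical
  refine ⟨?_, ?_⟩
  · intro ε hε
    obtain ⟨n₀, hn₀⟩ := dense_iff ε hε
    refine ⟨n₀, ?_⟩
    intro V _ G _ h5 hcl
    refine ⟨twoPart_of_rigid h5, fun hT => ?_⟩
    have hM := mixed_of_twoPart hT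
    rcases hcl with ⟨A, B, h3A, h3B, hAB, hA, hB⟩ | ⟨hn, hα⟩ | ⟨hn, hδ⟩
    · exact (two_iff V G A B hA hB h3A h3B hAB).2 hM
    · obtain ⟨h1, h2⟩ := deg_of_twoPart h5 hT
      exact (alpha_two hn hα).2 ⟨h1, h2, hM⟩
    · exact (hn₀ V G hn hδ).2 hM
  · intro N
    refine ⟨Fin 3 × (Fin 9 ⊕ Fin N), inferInstance, ring N, Classical.decRel _, ?_, ?_,
      ring_twoPart N, ring_not_rigid N⟩
    · rw [Fintype.card_prod, Fintype.card_sum, Fintype.card_fin, Fintype.card_fin,
        Fintype.card_fin]
      omega
    · intro v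
      have h := ring_degree N v
      rw [Fintype.card_prod, Fintype.card_sum, Fintype.card_fin, Fintype.card_fin,
        Fintype.card_fin]
      refine le_trans (b := 3 * (8 + N + 1)) (by omega) ?_
      refine Nat.mul_le_mul_left 3 (Nat.succ_le_succ ?_)
      exact h.trans (le_of_eq (by congr))

end Pool.Agent.Results.MP_37c7bf_co.DenseAndTwoBodies
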