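import Pool.Agent.TH409.RG.Family

/-!
# Generic rigidity in three dimensions of graphs spanned by completely joined triples

The generic rank in `ℝ³` of each graph which contains a connected system of disjoint triples of
vertices, where consecutive triples are completely joined, such that each other vertex is adjacent
to the three vertices of one of the triples.
-/

set_option autoImplicit false

namespace Pool.Agent.Results.MP_37c7bf_co.JoinedTriples

open Pool.Agent.H283R2.DR Pool.Agent.H789R5 Pool.Agent.TH409.RG

/-- Let `G` be a finite graph with `n` vertices and `t i` a nonempty family of pairwise disjoint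
triples of vertices, such that the graph on the index set where `i`, `j` are adjacent if each
vertex of `t i` is adjacent to each vertex of `t j` is connected and each vertex outside the
triples is adjacent to the three vertices of some triple. All other edges are arbitrary.

Then the generic rank of `G` in `ℝ³` is the minimum of the number of edges and `3n - 6`, and `G` is
generically rigid in `ℝ³` if and only if it has at least `3n - 6` edges. -/
theorem result (V : Type) [Fintype V] (G : SimpleGraph V) (ι : Type) (t : ι → Finset V)
    (hcard : ∀ i, (t i).card = 3) (hdisj : ∀ i j, i ≠ j → Disjoint (t i) (t j))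
    (hconn : (SimpleGraph.fromRel fun i j => ∀ a ∈ t i, ∀ b ∈ t j, G.Adj a b).Connected)
    (hcov : ∀ v, (∀ i, v ∉ t i) → ∃ i, ∀ z ∈ t i, G.Adj v z) :
    genRank 3 G = min G.edgeSet.ncard (3 * Fintype.card V - 6) ∧
      (GenRigid 3 G ↔ 3 * Fintype.card V ≤ G.edgeSet.ncard + 6) := by
  have h1 := rank_family t hcard hdisj hconn hcov
  have := hconn.nonempty
  exact ⟨h1, rigid_iff_of_rank (three_le_of_family t hcard) h1⟩

end Pool.Agent.Results.MP_37c7bf_co.JoinedTriples
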