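import Pool.Agent.TH349.Rig.Cograph

/-!
# Generic rigidity in three dimensions of joins and of cographs

A join of two graphs has two sides, any two vertices on different sides being adjacent; these are
the graphs with disconnected complement. We give the generic rank in `ℝ³` of all joins with at
least three vertices on each side, and characterize the generically rigid graphs among all joins
with at least two vertices on each side and all graphs without induced path on four vertices.
-/

set_option autoImplicit false

namespace Pool.Agent.Results.MP_37c7bf_co.Joins

open Pool.Agent.H283R2.DR Pool.Agent.H789R5 Pool.Agent.TH349.Rig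

open Classical in
/-- Let `G` be a finite graph with `n` vertices, `A` a set of vertices such that each vertex of `A`
is adjacent to each vertex outside `A`.

(1) If `A` and its complement have at least three elements each, then the generic rank of `G` in
`ℝ³` is the minimum of the number of edges and `3n - 6`.

(2) If `n ≥ 4` and `A` and its complement have at least two elements each, or if `n ≥ 4` and `G` is
any graph without induced path on four vertices, then `G` is generically rigid in `ℝ³` if and only
if it is three-connected and has at least `3n - 6` edges. -/
theorem result (V : Type) [Fintype V] (G : SimpleGraph V) :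
    (∀ A : Finset V, 3 ≤ A.card → 3 ≤ (Aᶜ).card → (∀ a ∈ A, ∀ b ∉ A, G.Adj a b) →
      genRank 3 G = min G.edgeSet.ncard (3 * Fintype.card V - 6)) ∧
    (4 ≤ Fintype.card V →
      (P4Free G ∨ ∃ A : Finset V, 2 ≤ A.card ∧ 2 ≤ (Aᶜ).card ∧ ∀ a ∈ A, ∀ b ∉ A, G.Adj a b) →
      (GenRigid 3 G ↔ ThreeConnected G ∧ 3 * Fintype.card V ≤ G.edgeSet.ncard + 6)) := by
  refine ⟨fun A hA hB hJ => ?_, fun h4 hG => rigid_iff h4 hG⟩
  exact rank_join ⟨disjoint_compl_right, fun a ha b hb => hJ a ha b (Finset.mem_compl.1 hb)⟩ hA hB

end Pool.Agent.Results.MP_37c7bf_co.Joins
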