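import Mathlib
import Pool.Agent.TH483.Rigid

/-!
# A quasi-polynomial black-box test for generic rigidity of graphs of small treewidth

For all `d`, `n`, `k` an explicit set of `(nd)^(O(d k log² n))` integer placements of `n` vertices
in `d`-space is such that every graph on these vertices of treewidth at most `k` attains its generic
rank in the `d`-dimensional rigidity matroid at one of the placements. So generic rigidity in
`ℝ^3` can be decided by a deterministic test in quasi-polynomial time for all graphs whose treewidth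
is polylogarithmic, without any knowledge of a tree decomposition, and in time `2 ^ Õ(√n)` for the
graphs of a proper minor-closed class.

The proof has three parts. A tree decomposition gives a linear layout of the edges such that each
cut of the list is crossed by `O(k log n)` vertices (`TH483.edge_layout`). The nonzero minors of the
symbolic rigidity matrix can be expanded along such a cut, so that with respect to the intervals of
an order of the coordinates they are sums of `n^(O(dk log n))` products (`TH483.minor_ordRk`). The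
explicit set of points is that of Agrawal, Gurjar, Korwar and Saxena for read-once oblivious
programs in an unknown order (basis isolating weights); a self-contained proof is in
`TH483.exists_hit`.
-/

set_option autoImplicit false

namespace Pool.Agent.Results.MP_37c7bf_co.SmallTreewidth

open MvPolynomial Pool.Agent.TH483 Pool.Agent.H283R2.DR Pool.Agent.H789R5

/-- the number of the columns and the coordinates which cross a cut -/
def crossing (d n k : ℕ) : ℕ := 2 * d * ((k + 1) * (Nat.log 2 (n ^ 2) + 1))

/-- the bound for the rank across a cut -/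
def width (d n k : ℕ) : ℕ :=
  2 ^ (2 * crossing d n k) * (n * d + 1) ^ (2 * crossing d n k + 2 * (2 * d))

/-- The placements: the points of the explicit set `hit`, cut into `n` vectors of length `d`. -/
noncomputable def placements (d n k : ℕ) : Finset (Fin n → Fin d → ℤ) :=
  (hit (n * d) (n * d) (width d n k) 1 (Nat.clog 2 (n * d)) (n * d)).image
    fun x v i => x (finProdFinEquiv (v, i))

theorem rank_le_genRank {n d : ℕ} (G : SimpleGraph (Fin n)) (p : Fin n → Fin d → ℝ) :
    (rigidityMatrix G p).rank ≤ genRank d G := by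
  unfold genRank
  refine le_csSup ⟨n * d, ?_⟩ ⟨p, rfl⟩
  rintro _ ⟨p', rfl⟩
  refine (Matrix.rank_le_card_width _).trans ?_
  rw [Fintype.card_prod, Fintype.card_fin, Fintype.card_fin]

theorem rk_mono {σ : Type*} [DecidableEq σ] {K : Type*} [Field K] {U : Finset σ} {W W' : ℕ}
    {f : MvPolynomial σ K} (h : Rk U W f) (hW : W ≤ W') : Rk U W' f := by
  obtain ⟨S, hS, h'⟩ := h
  exact ⟨S, hS.trans hW, h'⟩

theorem ordRk_mono {n : ℕ} {K : Type*} [Field K] {W W' : ℕ}
    {f : MvPolynomial (Fin n) K} (h : OrdRk W f) (hW : W ≤ W') : OrdRk W' f := by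
  obtain ⟨ρ, h1, h2, h3⟩ := h
  exact ⟨ρ, h1, h2, fun a b => rk_mono (h3 a b) hW⟩

theorem one_le_width (d n k : ℕ) : 1 ≤ width d n k := by
  unfold width
  exact Nat.one_le_iff_ne_zero.2 (by positivity)

/-- the minors of the symbolic rigidity matrix -/
theorem minor_rk {n d k r : ℕ} {G : SimpleGraph (Fin n)} (hG : TreewidthLE k G)
    {s : Fin r → G.edgeSet} {c : Fin r → Fin n × Fin d} (hs : Function.Injective s)
    (hc : Function.Injective c) : OrdRk (width d n k) ((smat d G).submatrix s c).det := by
  classical
  obtain ⟨L, hL, hbd⟩ := edge_layout hG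
  have h1 := minor_ordRk (M := smat d G) (f := fun e _ => e) (L := L) (q := crossing d n k)
    (w := 2 * d) (δ := 1) (fun i j _ => hL i) (fun t => by
      refine (bd_smat G _).trans ?_
      unfold crossing
      exact Nat.mul_le_mul_left _ (le_trans (le_of_eq (by congr!)) (hbd t)))
    (fun e => vinc_smat G e) (fun e c => smat_deg G e c) hs hc
  have hr : r ≤ n * d := by
    have := Fintype.card_le_of_injective c hc
    simpa using this
  refine ordRk_mono h1 ?_
  unfold width
  exact Nat.mul_le_mul_left _ (Nat.pow_le_pow_left (by omega) _)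

theorem exists_placement {n d k : ℕ} {G : SimpleGraph (Fin n)} (hG : TreewidthLE k G)
    (p : Fin n → Fin d → ℝ) : ∃ q ∈ placements d n k,
      (rigidityMatrix G p).rank ≤ (rigidityMatrix G (fun v i => (q v i : ℝ))).rank := by
  classical
  obtain ⟨ρ, hρ, s, c, hsc⟩ : ∃ ρ, (rigidityMatrix G p).rank = ρ ∧
      ∃ (s : Fin ρ → G.edgeSet) (c : Fin ρ → Fin n × Fin d),
        ((rigidityMatrix G p).submatrix s c).det ≠ 0 := ⟨_, rfl, TH483.exists_minor _⟩
  have hplc : plc (fun x : Fin (n * d) => p (finProdFinEquiv.symm x).1 (finProdFinEquiv.symm x).2) =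
      p := by
    funext v i
    change p (finProdFinEquiv.symm (finProdFinEquiv (v, i))).1
      (finProdFinEquiv.symm (finProdFinEquiv (v, i))).2 = p v i
    rw [Equiv.symm_apply_apply]
  have hev : ∀ x : Fin (n * d) → ℝ, eval x ((smat d G).submatrix s c).det =
      ((rigidityMatrix G (plc x)).submatrix s c).det := by
    intro x
    rw [← eval_smat, RingHom.map_det]
    rfl
  have hne : ((smat d G).submatrix s c).det ≠ 0 := by
    intro h0
    apply hsc
    rw [← hplc, ← hev, h0, map_zero]
  obtain ⟨hs, hc⟩ := TH483.inj_of_det _ s c hsc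
  have hr : ρ ≤ n * d := by
    have := Fintype.card_le_of_injective c hc
    simpa using this
  obtain ⟨x, hx, hxe⟩ := exists_hit (J := 1) (f := fun _ => ((smat d G).submatrix s c).det)
    (D := n * d) (W := width d n k) (h := Nat.clog 2 (n * d)) (d := n * d) (fun _ => hne)
    (fun _ => by
      have := (det_mem (A := Set.univ) ((smat d G).submatrix s c)
        (fun i j => by rw [mem_supported]; exact Set.subset_univ _)
        (fun i j => smat_deg G _ _)).2
      rw [Fintype.card_fin, mul_one] at this
      exact this.trans hr)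
    (one_le_width d n k) (Nat.le_pow_clog (by norm_num) _) (fun _ => minor_rk hG hs hc)
    (g := ((smat d G).submatrix s c).det) (by simp)
    (by
      have := (det_mem (A := Set.univ) ((smat d G).submatrix s c)
        (fun i j => by rw [mem_supported]; exact Set.subset_univ _)
        (fun i j => smat_deg G _ _)).2
      rw [Fintype.card_fin, mul_one] at this
      exact this.trans hr)
  refine ⟨fun v i => x (finProdFinEquiv (v, i)), Finset.mem_image_of_mem _ hx, ?_⟩
  rw [hev] at hxe
  rw [hρ]
  exact TH483.le_rank_of_minor _ s c hxe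

theorem width_le {d : ℕ} (hd : 1 ≤ d) (n k : ℕ) :
    2 * (n * d + 1) * (n * d + 1 * ((n * d) ^ 2 * width d n k ^ 4) + 1) ≤
      (2 * n * d + 2) ^ (35 * d * (k + 1) * (Nat.log 2 (n ^ 2) + 1)) := by
  set N := n * d + 1 with hN
  set W := width d n k with hW
  set q := crossing d n k with hq
  set L := Nat.log 2 (n ^ 2) + 1 with hL
  have hW1 : 1 ≤ W := one_le_width d n k
  have hW41 : 1 ≤ W ^ 4 := Nat.one_le_pow _ _ hW1
  have h2N : 2 * n * d + 2 = 2 * N := by rw [hN]; ring
  have h1 : n * d + 1 * ((n * d) ^ 2 * W ^ 4) + 1 ≤ N ^ 2 * W ^ 4 := by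
    have e : N ^ 2 * W ^ 4 = (n * d) ^ 2 * W ^ 4 + (2 * (n * d) + 1) * W ^ 4 := by
      rw [hN]; ring
    rw [e]
    have : (2 * (n * d) + 1) * 1 ≤ (2 * (n * d) + 1) * W ^ 4 := Nat.mul_le_mul_left _ hW41
    omega
  have hWle : W ≤ (2 * N) ^ (2 * q + 2 * (2 * d)) := by
    rw [hW]
    unfold width
    rw [← hq, ← hN, mul_pow]
    refine Nat.mul_le_mul (Nat.pow_le_pow_right (by norm_num) (by omega)) le_rfl
  rw [h2N]
  calc 2 * N * (n * d + 1 * ((n * d) ^ 2 * W ^ 4) + 1) ≤ 2 * N * (N ^ 2 * W ^ 4) :=
        Nat.mul_le_mul_left _ h1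
    _ ≤ (2 * N) * ((2 * N) ^ 2 * ((2 * N) ^ (2 * q + 2 * (2 * d))) ^ 4) := by
        gcongr
        omega
    _ = (2 * N) ^ (3 + (2 * q + 2 * (2 * d)) * 4) := by
        rw [← pow_mul]
        ring
    _ ≤ (2 * N) ^ (35 * d * (k + 1) * L) := by
        refine Nat.pow_le_pow_right (by omega) ?_
        have hL1 : 1 ≤ L := by omega
        have hkL : 1 ≤ (k + 1) * L := Nat.one_le_iff_ne_zero.2 (by positivity)
        have e1 : q = 2 * d * ((k + 1) * L) := rfl
        have e2 : 35 * d * (k + 1) * L = 35 * (d * ((k + 1) * L)) := by ring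
        have e3 : d * 1 ≤ d * ((k + 1) * L) := Nat.mul_le_mul_left _ hkL
        rw [e1, e2]
        set Z := (k + 1) * L with hZ
        have e4 : 2 * d * Z = 2 * (d * Z) := by ring
        rw [e4]
        omega

/-- **Quasi-polynomial black-box test for generic rigidity, for graphs of small treewidth.**
The explicit set `placements d n k` consists of at most
`(2nd + 2) ^ (35 d (k + 1) (⌊log₂ n²⌋ + 1) (2 ⌈log₂ nd⌉ + 1))` integer placements of `n` vertices in
`ℝ^d`. For every graph `G` of treewidth at most `k` on the `n` vertices, the rank of `G` in the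
generic `d`-dimensional rigidity matroid is the largest rank of the rigidity matrix of `G` at these
placements; so, for `n ≥ d`, the graph is generically rigid in `ℝ^d` if and only if the rank is at
least `dn - d (d + 1) / 2` at one of them. -/
theorem result (d n k : ℕ) (hd : 1 ≤ d) :
    (placements d n k).card ≤ ((2 * n * d + 2) ^
      (35 * d * (k + 1) * (Nat.log 2 (n ^ 2) + 1))) ^ (2 * Nat.clog 2 (n * d) + 1) ∧
    (∀ q ∈ placements d n k, ∀ v i, |q v i| ≤ ((((2 * n * d + 2) ^
      (35 * d * (k + 1) * (Nat.log 2 (n ^ 2) + 1))) ^ ((2 * n * d + 2) ^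
        (35 * d * (k + 1) * (Nat.log 2 (n ^ 2) + 1)) * Nat.clog 2 (n * d) + 1) : ℕ) : ℤ)) ∧
    ∀ G : SimpleGraph (Fin n), TreewidthLE k G →
      (∀ q ∈ placements d n k, (rigidityMatrix G (fun v i => (q v i : ℝ))).rank ≤ genRank d G) ∧
      (∃ q ∈ placements d n k, (rigidityMatrix G (fun v i => (q v i : ℝ))).rank = genRank d G) ∧
      (d ≤ n → (GenRigid d G ↔ ∃ q ∈ placements d n k,
        d * n ≤ (rigidityMatrix G (fun v i => (q v i : ℝ))).rank + d * (d + 1) / 2)) := by
  classical
  have hwl := width_le hd n k
  refine ⟨?_, ?_, ?_⟩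
  · refine Finset.card_image_le.trans ((hit_card _ _ _ _ _ _).trans ?_)
    exact Nat.pow_le_pow_left hwl _
  · intro q hq v i
    unfold placements at hq
    rw [Finset.mem_image] at hq
    obtain ⟨x, hx, rfl⟩ := hq
    have hn1 : 1 ≤ n := Nat.one_le_iff_ne_zero.2 (by rintro rfl; exact v.elim0)
    have hnd : 1 ≤ n * d := Nat.one_le_iff_ne_zero.2 (by positivity)
    have hp := pr_pos (n * d) (n * d) (width d n k) 1
    have hple := pr_le (n * d) (n * d) (width d n k) 1
    unfold hit at hx
    refine (points_bound _ hp _ (Nat.one_le_iff_ne_zero.2 (by positivity)) x hx _).trans ?_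
    apply Int.ofNat_le.2
    set Y := (2 * n * d + 2) ^ (35 * d * (k + 1) * (Nat.log 2 (n ^ 2) + 1)) with hY
    set Z := n * d + 1 * ((n * d) ^ 2 * width d n k ^ 4) + 1 with hZ
    have h1 : n * d * pr (n * d) (n * d) (width d n k) 1 ≤ Y := by
      refine le_trans ?_ hwl
      calc n * d * pr (n * d) (n * d) (width d n k) 1 ≤ (n * d + 1) * (2 * Z) :=
            Nat.mul_le_mul (Nat.le_succ _) hple
        _ = 2 * (n * d + 1) * Z := by ring
    have h2 : pr (n * d) (n * d) (width d n k) 1 ≤ Y := by
      refine le_trans (Nat.le_mul_of_pos_left _ hnd) h1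
    have hY1 : 1 ≤ Y := Nat.one_le_pow _ _ (by omega)
    calc (n * d * pr (n * d) (n * d) (width d n k) 1) ^
          (pr (n * d) (n * d) (width d n k) 1 * Nat.clog 2 (n * d) + 1)
        ≤ Y ^ (pr (n * d) (n * d) (width d n k) 1 * Nat.clog 2 (n * d) + 1) :=
          Nat.pow_le_pow_left h1 _
      _ ≤ Y ^ (Y * Nat.clog 2 (n * d) + 1) :=
          Nat.pow_le_pow_right hY1 (Nat.add_le_add_right (Nat.mul_le_mul_right _ h2) 1)
  · intro G hG
    obtain ⟨p, hp⟩ := exists_mg (Fin n) d
    have hgr := genRank_add hp G
    have hrp := rank_add_mo G p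
    rw [Fintype.card_fin] at hgr hrp
    obtain ⟨q, hq, hqr⟩ := exists_placement hG p
    have hqe : (rigidityMatrix G (fun v i => (q v i : ℝ))).rank = genRank d G := by
      have := rank_le_genRank G (fun v i => (q v i : ℝ))
      omega
    refine ⟨fun q _ => rank_le_genRank G _, ⟨q, hq, hqe⟩, fun hdn => ?_⟩
    rw [genRigid_iff hp (by rw [Fintype.card_fin]; exact hdn)]
    constructor
    · intro h
      exact ⟨q, hq, by omega⟩
    · rintro ⟨q', -, hq'⟩
      have := rank_le_genRank G (fun v i => (q' v i : ℝ))
      omega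

end Pool.Agent.Results.MP_37c7bf_co.SmallTreewidth
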